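import Pool.Agent.helper35.MT.AN3
import Pool.Agent.helper95.MT.AN2

/-! # Maynard-Tao, module AN4: lower bound for complex characters near `1` -/

namespace Pool.Agent.helper39.MT

open Finset Real ArithmeticFunction

/-- `∑ n^(-1-x) ≤ 1 + 1/x` -/
theorem h35_zeta_le {x : ℝ} (hx : 0 < x) :
    (∑' n : ℕ, 1 / ((n : ℝ) + 1) ^ (1 + x)) ≤ 1 + 1 / x := by
  have h := ZetaAsymptotics.zeta_limit_aux1 (s := 1 + x) (by linarith)
  have h2 : 0 ≤ ZetaAsymptotics.termTSum (1 + x) := by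
    unfold ZetaAsymptotics.termTSum
    exact tsum_nonneg fun n => ZetaAsymptotics.term_nonneg _ _
  have h3 : 0 ≤ (1 + x) * ZetaAsymptotics.termTSum (1 + x) := by positivity
  have h4 : 1 + x - 1 = x := by ring
  rw [h4] at h
  linarith

/-- `|L(1 + x + it, χ)| ≤ 1 + 1/x` -/
theorem h35_norm_L_le {q : ℕ} (χ : DirichletCharacter ℂ q) {s : ℂ} (hs : 1 < s.re) :
    ‖LSeries (fun n => χ n) s‖ ≤ 1 + 1 / (s.re - 1) := by
  have hsum : Summable (fun n : ℕ => 1 / ((n : ℝ) + 1) ^ (1 + (s.re - 1))) := by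
    have h := Real.summable_one_div_nat_rpow.2 (show 1 < 1 + (s.re - 1) by linarith)
    have h2 := (summable_nat_add_iff 1).2 h
    simpa using h2
  have hterm : ∀ n : ℕ, ‖LSeries.term (fun n => χ n) s (n + 1)‖
      ≤ 1 / ((n : ℝ) + 1) ^ (1 + (s.re - 1)) := by
    intro n
    rw [LSeries.norm_term_eq]
    simp only [Nat.add_eq_zero_iff, one_ne_zero, and_false, if_false]
    push_cast
    have e : 1 + (s.re - 1) = s.re := by ring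
    rw [e]
    apply div_le_div_of_nonneg_right (χ.norm_le_one _) (by positivity)
  have hs1 : Summable (fun n : ℕ => ‖LSeries.term (fun n => χ n) s (n + 1)‖) :=
    Summable.of_nonneg_of_le (fun _ => norm_nonneg _) hterm hsum
  have hs2 : Summable (fun n : ℕ => LSeries.term (fun n => χ n) s n) :=
    (summable_nat_add_iff 1).1 hs1.of_norm
  have h1 : LSeries (fun n => χ n) s = ∑' n : ℕ, LSeries.term (fun n => χ n) s (n + 1) := by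
    unfold LSeries
    rw [hs2.tsum_eq_zero_add]
    simp
  rw [h1]
  refine (norm_tsum_le_tsum_norm hs1).trans ?_
  refine (hs1.tsum_le_tsum hterm hsum).trans ?_
  exact h35_zeta_le (by linarith)

theorem h35_DD_zero {q : ℕ} (χ : DirichletCharacter ℂ q) (s : ℂ) :
    DD χ 0 s = LSeries (fun n => χ n) s := by
  unfold DD
  simp only [pow_zero, mul_one]

/-- AN4: lower bound for complex characters. -/
theorem complex_lower_of
    (DD_bound : ∀ j : ℕ, ∃ C : ℝ, 0 < C ∧ ∀ q : ℕ, 2 ≤ q → ∀ χ : DirichletCharacter ℂ q, χ ≠ 1 →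
      ∀ s : ℂ, 1 < s.re → s.re ≤ 2 → |s.im| ≤ 1 → ‖DD χ j s‖ ≤ C * (1 + Real.log q) ^ (j + 1))
    (DD_lipschitz : ∃ C : ℝ, 0 < C ∧ ∀ q : ℕ, 2 ≤ q → ∀ χ : DirichletCharacter ℂ q, χ ≠ 1 →
      ∀ s t : ℂ, 1 < s.re → s.re ≤ 2 → |s.im| ≤ 1 → 1 < t.re → t.re ≤ 2 → |t.im| ≤ 1 →
      ‖DD χ 0 s - DD χ 0 t‖ ≤ C * (1 + Real.log q) ^ 2 * ‖s - t‖) :
    ∃ c : ℝ, 0 < c ∧ c ≤ 1 ∧ ∀ q : ℕ, 2 ≤ q → ∀ χ : DirichletCharacter ℂ q,
    χ ^ 2 ≠ 1 → ∀ x : ℝ, 0 < x → x ≤ c / (1 + Real.log q) ^ 9 →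
    c / (1 + Real.log q) ^ 7 ≤ ‖DD χ 0 (1 + (x : ℂ))‖ := by
  obtain ⟨C₁', hC₁', h₁⟩ := DD_bound 0
  obtain ⟨C₂', hC₂', h₂⟩ := DD_lipschitz
  set C₁ := max C₁' 1 with hC₁def
  set C₂ := max C₂' 1 with hC₂def
  have hC₁ : 1 ≤ C₁ := le_max_right _ _
  have hC₂ : 1 ≤ C₂ := le_max_right _ _
  have hC₁0 : 0 < C₁ := by linarith
  have hC₂0 : 0 < C₂ := by linarith
  set c₀ := 1 / (128 * C₁ * C₂ ^ 4) with hc₀
  have hc₀0 : 0 < c₀ := by positivity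
  have hc₀1 : c₀ ≤ 1 := by
    rw [hc₀, div_le_one (by positivity)]
    have : 1 ≤ C₂ ^ 4 := one_le_pow₀ hC₂
    nlinarith [mul_le_mul hC₁ this zero_le_one hC₁0.le]
  refine ⟨c₀, hc₀0, hc₀1, fun q hq χ hχ x hx0 hx => ?_⟩
  set ℓ := 1 + Real.log q with hℓ
  have hℓ1 : 1 ≤ ℓ := by
    have := Real.log_natCast_nonneg q
    linarith
  have hℓ0 : 0 < ℓ := by linarith
  have hχ1 : χ ≠ 1 := by
    rintro rfl
    exact hχ (one_pow 2)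
  set x₀ := c₀ / ℓ ^ 9 with hx₀
  have hx₀0 : 0 < x₀ := by positivity
  have hx₀1 : x₀ ≤ 1 := by
    rw [hx₀, div_le_one (by positivity)]
    exact hc₀1.trans (one_le_pow₀ hℓ1)
  -- the three factors
  have hprod := DirichletCharacter.norm_LSeries_product_ge_one χ hx₀0 0
  simp only [Complex.ofReal_zero, mul_zero, add_zero, norm_mul, norm_pow] at hprod
  have hre : ((1 : ℂ) + (x₀ : ℂ)).re = 1 + x₀ := by simp
  have him : ((1 : ℂ) + (x₀ : ℂ)).im = 0 := by simp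
  have ha : ‖LSeries (fun n : ℕ => ((1 : DirichletCharacter ℂ q) n : ℂ)) (1 + (x₀ : ℂ))‖ ≤ 2 / x₀ := by
    have h := h35_norm_L_le (1 : DirichletCharacter ℂ q) (s := 1 + (x₀ : ℂ))
      (by rw [hre]; linarith)
    rw [hre, add_sub_cancel_left] at h
    refine h.trans ?_
    rw [show (2 : ℝ) / x₀ = 1 / x₀ + 1 / x₀ by ring]
    have : 1 ≤ 1 / x₀ := by
      rw [le_div_iff₀ hx₀0]; linarith
    linarith
  have hb : ‖LSeries (fun n : ℕ => ((χ ^ 2 :) n : ℂ)) (1 + (x₀ : ℂ))‖ ≤ C₁ * ℓ := by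
    have h := h₁ q hq (χ ^ 2) hχ (1 + (x₀ : ℂ)) (by rw [hre]; linarith) (by rw [hre]; linarith)
      (by rw [him]; simp)
    rw [h35_DD_zero, zero_add, pow_one] at h
    refine h.trans ?_
    exact mul_le_mul_of_nonneg_right (le_max_left _ _) hℓ0.le
  set y := ‖LSeries (fun n : ℕ => (χ n : ℂ)) (1 + (x₀ : ℂ))‖ with hy
  have hy0 : 0 ≤ y := norm_nonneg _
  -- lower bound at x₀
  have hy1 : 2 * C₂ * c₀ / ℓ ^ 7 ≤ y := by
    by_contra hcon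
    push Not at hcon
    have h3 : ‖LSeries (fun n : ℕ => ((1 : DirichletCharacter ℂ q) n : ℂ)) (1 + (x₀ : ℂ))‖ ^ 3 * y ^ 4
        * ‖LSeries (fun n : ℕ => ((χ ^ 2 :) n : ℂ)) (1 + (x₀ : ℂ))‖
        < (2 / x₀) ^ 3 * (2 * C₂ * c₀ / ℓ ^ 7) ^ 4 * (C₁ * ℓ) := by
      have h4 : y ^ 4 < (2 * C₂ * c₀ / ℓ ^ 7) ^ 4 := pow_lt_pow_left₀ hcon hy0 (by norm_num)
      have h5 : ‖LSeries (fun n : ℕ => ((1 : DirichletCharacter ℂ q) n : ℂ)) (1 + (x₀ : ℂ))‖ ^ 3 ≤ (2 / x₀) ^ 3 :=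
        pow_le_pow_left₀ (norm_nonneg _) ha 3
      calc ‖LSeries (fun n : ℕ => ((1 : DirichletCharacter ℂ q) n : ℂ)) (1 + (x₀ : ℂ))‖ ^ 3 * y ^ 4
            * ‖LSeries (fun n : ℕ => ((χ ^ 2 :) n : ℂ)) (1 + (x₀ : ℂ))‖
          ≤ (2 / x₀) ^ 3 * y ^ 4 * (C₁ * ℓ) := by
            apply mul_le_mul _ hb (norm_nonneg _) (by positivity)
            exact mul_le_mul_of_nonneg_right h5 (by positivity)
        _ < (2 / x₀) ^ 3 * (2 * C₂ * c₀ / ℓ ^ 7) ^ 4 * (C₁ * ℓ) := by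
            apply mul_lt_mul_of_pos_right _ (by positivity)
            exact mul_lt_mul_of_pos_left h4 (by positivity)
    have h6 : (2 / x₀) ^ 3 * (2 * C₂ * c₀ / ℓ ^ 7) ^ 4 * (C₁ * ℓ) = 1 := by
      rw [hx₀, hc₀]
      field_simp
      norm_num
    rw [h6] at h3
    exact absurd hprod (not_le.2 h3)
  -- Lipschitz
  have hxx : x ≤ x₀ := hx
  have hrex : ((1 : ℂ) + (x : ℂ)).re = 1 + x := by simp
  have himx : ((1 : ℂ) + (x : ℂ)).im = 0 := by simp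
  have hlip := h₂ q hq χ hχ1 (1 + (x₀ : ℂ)) (1 + (x : ℂ)) (by rw [hre]; linarith)
    (by rw [hre]; linarith) (by rw [him]; simp) (by rw [hrex]; linarith) (by rw [hrex]; linarith)
    (by rw [himx]; simp)
  have hdiff : ‖(1 + (x₀ : ℂ)) - (1 + (x : ℂ))‖ ≤ x₀ := by
    have : (1 + (x₀ : ℂ)) - (1 + (x : ℂ)) = ((x₀ - x : ℝ) : ℂ) := by push_cast; ring
    rw [this, Complex.norm_real, Real.norm_of_nonneg (by linarith)]
    linarith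
  have hlip2 : ‖DD χ 0 (1 + (x₀ : ℂ)) - DD χ 0 (1 + (x : ℂ))‖ ≤ C₂ * c₀ / ℓ ^ 7 := by
    refine hlip.trans ?_
    calc C₂' * ℓ ^ 2 * ‖(1 + (x₀ : ℂ)) - (1 + (x : ℂ))‖ ≤ C₂ * ℓ ^ 2 * x₀ := by
          apply mul_le_mul _ hdiff (norm_nonneg _) (by positivity)
          exact mul_le_mul_of_nonneg_right (le_max_left _ _) (by positivity)
      _ = C₂ * c₀ / ℓ ^ 7 := by
          rw [hx₀]; field_simp
  have hy2 : y = ‖DD χ 0 (1 + (x₀ : ℂ))‖ := by rw [h35_DD_zero]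
  have h7 : ‖DD χ 0 (1 + (x₀ : ℂ))‖ - ‖DD χ 0 (1 + (x : ℂ))‖
      ≤ ‖DD χ 0 (1 + (x₀ : ℂ)) - DD χ 0 (1 + (x : ℂ))‖ := norm_sub_norm_le _ _
  have h8 : c₀ / ℓ ^ 7 ≤ C₂ * c₀ / ℓ ^ 7 := by
    apply div_le_div_of_nonneg_right _ (by positivity)
    nlinarith
  have h9 : 2 * C₂ * c₀ / ℓ ^ 7 = C₂ * c₀ / ℓ ^ 7 + C₂ * c₀ / ℓ ^ 7 := by ring
  linarith

/-- AN4: lower bound for complex characters. -/
theorem complex_lower : ∃ c : ℝ, 0 < c ∧ c ≤ 1 ∧ ∀ q : ℕ, 2 ≤ q → ∀ χ : DirichletCharacter ℂ q,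
    χ ^ 2 ≠ 1 → ∀ x : ℝ, 0 < x → x ≤ c / (1 + Real.log q) ^ 9 →
    c / (1 + Real.log q) ^ 7 ≤ ‖DD χ 0 (1 + (x : ℂ))‖ :=
  complex_lower_of DD_bound DD_lipschitz

end Pool.Agent.helper39.MT
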