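import Pool.Agent.helper35.MT.TR7

/-! # Maynard-Tao, module TR8: prime powers do not matter -/

namespace Pool.Agent.helper39.MT

open Finset Real ArithmeticFunction

open Classical in
/-- `Λ` restricted to the integers which are not prime -/
noncomputable def h35_np (n : ℕ) : ℝ := if n.Prime then 0 else vonMangoldt n

lemma h35_np_nonneg (n : ℕ) : 0 ≤ h35_np n := by
  unfold h35_np
  split_ifs
  · exact le_rfl
  · exact vonMangoldt_nonneg

lemma h35_np_sum_le : ∃ C : ℝ, 0 < C ∧ ∀ n : ℕ, ∑ m ∈ Ioc 0 n, h35_np m ≤ C * √n := by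
  obtain ⟨C, hC⟩ := Chebyshev.psi_sub_theta_le_mul_sqrt
  refine ⟨max C 1, by positivity, fun n => ?_⟩
  have h1 := hC n
  rw [Chebyshev.psi_sub_theta_eq_sum_not_prime, Nat.floor_natCast, Finset.sum_filter] at h1
  have h2 : ∑ m ∈ Ioc 0 n, h35_np m = ∑ m ∈ Ioc 0 n, if ¬ m.Prime then vonMangoldt m else 0 := by
    refine sum_congr rfl fun m _ => ?_
    unfold h35_np
    by_cases hm : m.Prime <;> simp [hm]
  rw [h2]
  refine h1.trans ?_
  exact mul_le_mul_of_nonneg_right (le_max_left _ _) (Real.sqrt_nonneg _)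

/-- partial summation -/
lemma h35_abel (f : ℕ → ℝ) {K M : ℕ} (hK : 1 ≤ K) (hKM : K ≤ M) :
    ∑ n ∈ Ioc K M, f n / n = (∑ m ∈ Ioc 0 M, f m) / (M + 1) - (∑ m ∈ Ioc 0 K, f m) / (K + 1)
      + ∑ n ∈ Ioc K M, (∑ m ∈ Ioc 0 n, f m) / (n * (n + 1)) := by
  induction M, hKM using Nat.le_induction with
  | base => simp
  | succ M hM ih =>
    have e1 := Finset.sum_Ioc_succ_top hM (fun n : ℕ => f n / (n : ℝ))
    have e2 := Finset.sum_Ioc_succ_top hM
      (fun n : ℕ => (∑ m ∈ Ioc 0 n, f m) / ((n : ℝ) * (n + 1)))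
    have e3 := Finset.sum_Ioc_succ_top (Nat.zero_le M) f
    rw [e1, e2, e3, ih]
    have hM0 : (0 : ℝ) < M := by exact_mod_cast (by omega : 0 < M)
    push_cast
    field_simp
    ring

lemma h35_sqrt_tele {n : ℕ} (hn : 2 ≤ n) :
    √(n : ℝ) / (n * (n + 1)) ≤ 2 / √((n : ℝ) - 1) - 2 / √(n : ℝ) := by
  have hn0 : (2 : ℝ) ≤ n := by exact_mod_cast hn
  set a := √((n : ℝ) - 1) with ha
  set b := √(n : ℝ) with hb
  have ha0 : 0 < a := Real.sqrt_pos.2 (by linarith)
  have hb0 : 0 < b := Real.sqrt_pos.2 (by linarith)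
  have ha2 : a ^ 2 = n - 1 := Real.sq_sqrt (by linarith)
  have hb2 : b ^ 2 = n := Real.sq_sqrt (by linarith)
  have hab : a ≤ b := Real.sqrt_le_sqrt (by linarith)
  have h1 : 2 / a - 2 / b = 2 * (b - a) / (a * b) := by
    field_simp
  have h2 : b - a = 1 / (a + b) := by
    rw [eq_div_iff (by positivity)]
    nlinarith
  rw [h1, h2]
  have h3 : b / ((n : ℝ) * (n + 1)) ≤ 1 / b ^ 3 := by
    rw [div_le_div_iff₀ (by positivity) (by positivity)]
    have : b * b ^ 3 = (n : ℝ) * n := by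
      have : b * b ^ 3 = b ^ 2 * b ^ 2 := by ring
      rw [this, hb2]
    rw [this]
    nlinarith
  refine h3.trans ?_
  have h4 : 2 * (1 / (a + b)) / (a * b) = 2 / ((a + b) * (a * b)) := by
    field_simp
  rw [h4, div_le_div_iff₀ (by positivity) (by positivity)]
  have h5 : (a + b) * (a * b) ≤ (b + b) * (b * b) := by
    apply mul_le_mul (by linarith) _ (by positivity) (by positivity)
    exact mul_le_mul_of_nonneg_right hab hb0.le
  nlinarith

lemma h35_tail_le : ∃ C : ℝ, 0 < C ∧ ∀ K M : ℕ, 1 ≤ K → K ≤ M →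
    ∑ n ∈ Ioc K M, h35_np n / n ≤ C / √K := by
  obtain ⟨C, hC, h⟩ := h35_np_sum_le
  refine ⟨3 * C, by positivity, fun K M hK hKM => ?_⟩
  have hK0 : (0 : ℝ) < K := by exact_mod_cast hK
  have hM0 : (0 : ℝ) < M := lt_of_lt_of_le hK0 (by exact_mod_cast hKM)
  rw [h35_abel _ hK hKM]
  have h1 : (∑ m ∈ Ioc 0 M, h35_np m) / ((M : ℝ) + 1) ≤ C / √K := by
    calc (∑ m ∈ Ioc 0 M, h35_np m) / ((M : ℝ) + 1) ≤ (C * √M) / M := by
          apply div_le_div₀ (by positivity) (h M) hM0 (by linarith)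
      _ = C / √M := by
          rw [div_eq_div_iff hM0.ne' (by positivity)]
          rw [mul_assoc, Real.mul_self_sqrt hM0.le]
      _ ≤ C / √K := by
          apply div_le_div_of_nonneg_left hC.le (by positivity)
          exact Real.sqrt_le_sqrt (by exact_mod_cast hKM)
  have h2 : 0 ≤ (∑ m ∈ Ioc 0 K, h35_np m) / ((K : ℝ) + 1) :=
    div_nonneg (sum_nonneg fun m _ => h35_np_nonneg m) (by positivity)
  have h3 : ∑ n ∈ Ioc K M, (∑ m ∈ Ioc 0 n, h35_np m) / ((n : ℝ) * (n + 1)) ≤ C * (2 / √K) := by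
    have h4 : ∑ n ∈ Ioc K M, (∑ m ∈ Ioc 0 n, h35_np m) / ((n : ℝ) * (n + 1))
        ≤ ∑ n ∈ Ioc K M, C * (2 / √((n : ℝ) - 1) - 2 / √(n : ℝ)) := by
      refine sum_le_sum fun n hn => ?_
      rw [mem_Ioc] at hn
      have hn0 : (0 : ℝ) < n := by exact_mod_cast (by omega : 0 < n)
      calc (∑ m ∈ Ioc 0 n, h35_np m) / ((n : ℝ) * (n + 1)) ≤ (C * √n) / ((n : ℝ) * (n + 1)) :=
            div_le_div_of_nonneg_right (h n) (by positivity)
        _ = C * (√n / ((n : ℝ) * (n + 1))) := by ring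
        _ ≤ _ := mul_le_mul_of_nonneg_left (h35_sqrt_tele (by omega)) hC.le
    refine h4.trans ?_
    rw [← mul_sum]
    apply mul_le_mul_of_nonneg_left _ hC.le
    have h5 : ∀ M : ℕ, K ≤ M → ∑ n ∈ Ioc K M, (2 / √((n : ℝ) - 1) - 2 / √(n : ℝ))
        = 2 / √(K : ℝ) - 2 / √(M : ℝ) := by
      intro M hM
      induction M, hM using Nat.le_induction with
      | base => simp
      | succ M hM ih =>
        rw [Finset.sum_Ioc_succ_top (by omega), ih]
        push_cast
        rw [add_sub_cancel_right]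
        ring
    rw [h5 M hKM]
    have : 0 ≤ 2 / √(M : ℝ) := by positivity
    linarith
  have h6 : 3 * C / √(K : ℝ) = C / √K + C * (2 / √K) := by ring
  rw [h6]
  linarith

/-- TR8: prime powers do not matter. -/
theorem prime_powers (A B : ℕ) (hA : 0 < A) : ∃ C L₁ : ℝ, 0 < C ∧ ∀ L : ℝ, L₁ ≤ L →
    ∑ n ∈ Ioc 0 (NN L 0) with ¬ (A * n + B).Prime, wt L 0 n * vonMangoldt (A * n + B)
      ≤ C * Real.exp (-L / 5) := by
  obtain ⟨C, hC, h⟩ := h35_tail_le
  refine ⟨((A : ℝ) + B) * (2 * C), 1, by positivity, fun L hL => ?_⟩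
  have hL0 : 0 < L := by linarith
  have hA0 : (0 : ℝ) < A := by exact_mod_cast hA
  set K := ⌊Real.exp (L / 2)⌋₊ with hK
  have hK1 : 1 ≤ K := (Nat.one_le_floor_iff _).2 (Real.one_le_exp (by linarith))
  have hKN : K ≤ NN L 0 := by
    unfold NN
    exact Nat.floor_le_floor (Real.exp_le_exp.2 (by linarith))
  set M := A * NN L 0 + B with hM
  have hNM : NN L 0 ≤ M := by
    rw [hM]
    have := Nat.le_mul_of_pos_left (NN L 0) hA
    omega
  -- pointwise
  have h1 : ∀ n ∈ Ioc 0 (NN L 0), (if ¬ (A * n + B).Prime then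
      wt L 0 n * vonMangoldt (A * n + B) else 0)
      ≤ if K < n then ((A : ℝ) + B) * (h35_np (A * n + B) / ((A * n + B : ℕ) : ℝ)) else 0 := by
    intro n hn
    rw [mem_Ioc] at hn
    have hn0 : (0 : ℝ) < n := by exact_mod_cast hn.1
    by_cases hp : (A * n + B).Prime
    · rw [if_neg (not_not.2 hp)]
      split_ifs
      · apply mul_nonneg (by positivity)
        exact div_nonneg (h35_np_nonneg _) (Nat.cast_nonneg _)
      · exact le_rfl
    · rw [if_pos hp]
      by_cases hKn : K < n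
      · rw [if_pos hKn]
        have e : h35_np (A * n + B) = vonMangoldt (A * n + B) := by
          unfold h35_np; rw [if_neg hp]
        rw [e]
        have hN0 : (0 : ℝ) < ((A * n + B : ℕ) : ℝ) := by
          have : 0 < A * n := Nat.mul_pos hA hn.1
          exact_mod_cast (by omega : 0 < A * n + B)
        have h2 : (1 : ℝ) / n ≤ (A + B) / ((A * n + B : ℕ) : ℝ) := by
          rw [div_le_div_iff₀ hn0 hN0]
          push_cast
          have : (B : ℝ) ≤ B * n := by
            have h1n : (1 : ℝ) ≤ n := by exact_mod_cast hn.1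
            nlinarith [Nat.cast_nonneg (α := ℝ) B]
          linarith
        calc wt L 0 n * vonMangoldt (A * n + B) ≤ (A + B) / ((A * n + B : ℕ) : ℝ) *
              vonMangoldt (A * n + B) :=
              mul_le_mul_of_nonneg_right ((h35_wt_le L 0 n).trans h2) vonMangoldt_nonneg
          _ = _ := by ring
      · rw [if_neg hKn, h35_wt_zero hL0 hn.1, zero_mul]
        rw [add_zero]
        exact (Nat.le_floor_iff (Real.exp_pos _).le).1 (not_lt.1 hKn)
  rw [Finset.sum_filter]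
  refine (sum_le_sum h1).trans ?_
  rw [← Finset.sum_filter, ← mul_sum]
  -- inject into the integers up to M
  have h2 : ∑ n ∈ (Ioc 0 (NN L 0)).filter (fun n => K < n),
      h35_np (A * n + B) / ((A * n + B : ℕ) : ℝ) ≤ ∑ N ∈ Ioc K M, h35_np N / N := by
    have h3 : ∑ n ∈ (Ioc 0 (NN L 0)).filter (fun n => K < n),
        h35_np (A * n + B) / ((A * n + B : ℕ) : ℝ)
        = ∑ N ∈ ((Ioc 0 (NN L 0)).filter (fun n => K < n)).image (fun n => A * n + B),
            h35_np N / N := by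
      rw [Finset.sum_image]
      intro a _ b _ hab
      simp only at hab
      have : A * a = A * b := by omega
      exact Nat.eq_of_mul_eq_mul_left hA this
    rw [h3]
    apply Finset.sum_le_sum_of_subset_of_nonneg
    · intro N hN
      rw [mem_image] at hN
      obtain ⟨n, hn, rfl⟩ := hN
      rw [mem_filter, mem_Ioc] at hn
      rw [mem_Ioc, hM]
      have h4 : n ≤ A * n := Nat.le_mul_of_pos_left n hA
      have h5 : A * n ≤ A * NN L 0 := Nat.mul_le_mul_left A hn.1.2
      constructor <;> omega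
    · intro N _ _
      exact div_nonneg (h35_np_nonneg N) (Nat.cast_nonneg N)
  have h4 := h K M hK1 (hKN.trans hNM)
  have h5 : 1 / √(K : ℝ) ≤ 2 * Real.exp (-L / 5) := by
    have h6 : Real.exp (L / 2) / 2 ≤ K := h35_floor_ge (Real.one_le_exp (by linarith))
    have h7 : Real.exp (L / 4) / 2 ≤ √(K : ℝ) := by
      apply Real.le_sqrt_of_sq_le
      rw [div_pow, ← Real.exp_nat_mul]
      have e : ((2 : ℕ) : ℝ) * (L / 4) = L / 2 := by push_cast; ring
      rw [e]
      have := Real.exp_pos (L / 2)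
      linarith
    have h8 : 0 < Real.exp (L / 4) / 2 := by positivity
    calc 1 / √(K : ℝ) ≤ 1 / (Real.exp (L / 4) / 2) := by
          apply div_le_div_of_nonneg_left zero_le_one h8 h7
      _ = 2 * Real.exp (-(L / 4)) := by
          rw [Real.exp_neg]; field_simp
      _ ≤ 2 * Real.exp (-L / 5) := by
          apply mul_le_mul_of_nonneg_left _ (by norm_num)
          exact Real.exp_le_exp.2 (by linarith)
  calc ((A : ℝ) + B) * ∑ n ∈ (Ioc 0 (NN L 0)).filter (fun n => K < n),
        h35_np (A * n + B) / ((A * n + B : ℕ) : ℝ)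
      ≤ ((A : ℝ) + B) * (C / √(K : ℝ)) := by
        apply mul_le_mul_of_nonneg_left (h2.trans h4) (by positivity)
    _ = ((A : ℝ) + B) * C * (1 / √(K : ℝ)) := by ring
    _ ≤ ((A : ℝ) + B) * C * (2 * Real.exp (-L / 5)) := by
        apply mul_le_mul_of_nonneg_left h5 (by positivity)
    _ = _ := by ring

end Pool.Agent.helper39.MT
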