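import Pool.Agent.helper39.MT.Defs

/-! # Maynard-Tao, module AN3: the Leibniz recursion, bound for the derivatives of `-L'/L` -/

namespace Pool.Agent.helper39.MT

open Finset Real ArithmeticFunction

/-- `(log n)^j ≤ C n^ε` -/
theorem h35_log_pow_le (j : ℕ) {ε : ℝ} (hε : 0 < ε) : ∃ C : ℝ, 0 < C ∧ ∀ n : ℕ, n ≠ 0 →
    Real.log n ^ j ≤ C * (n : ℝ) ^ ε := by
  rcases Nat.eq_zero_or_pos j with rfl | hj
  · refine ⟨1, one_pos, fun n hn => ?_⟩
    rw [pow_zero, one_mul]
    exact Real.one_le_rpow (by exact_mod_cast Nat.one_le_iff_ne_zero.2 hn) hε.le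
  · refine ⟨(j / ε) ^ j, by positivity, fun n _ => ?_⟩
    have h1 := Real.log_natCast_le_rpow_div n (show 0 < ε / j by positivity)
    have h2 : 0 ≤ Real.log n := Real.log_natCast_nonneg n
    calc Real.log n ^ j ≤ ((n : ℝ) ^ (ε / j) / (ε / j)) ^ j := pow_le_pow_left₀ h2 h1 j
      _ = (j / ε) ^ j * (n : ℝ) ^ ε := by
        rw [div_pow, ← Real.rpow_natCast ((n : ℝ) ^ (ε / j)), ← Real.rpow_mul (by positivity)]
        have : ε / j * (j : ℝ) = ε := by field_simp
        rw [this, div_pow, div_pow]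
        field_simp

theorem h35_summable_of_log {f : ℕ → ℂ} {j : ℕ} (hf : ∀ n : ℕ, ‖f n‖ ≤ Real.log n ^ j) {s : ℂ}
    (hs : 1 < s.re) : LSeriesSummable f s := by
  obtain ⟨C, hC, h⟩ := h35_log_pow_le j (show 0 < (s.re - 1) / 2 by linarith)
  refine LSeriesSummable_of_le_const_mul_rpow (x := (s.re + 1) / 2) (by linarith) ⟨C, fun n hn => ?_⟩
  refine (hf n).trans ((h n hn).trans (le_of_eq ?_))
  congr 2
  ring

theorem h35_norm_DD_coeff {q : ℕ} (χ : DirichletCharacter ℂ q) (j n : ℕ) :
    ‖χ n * (Real.log n : ℂ) ^ j‖ ≤ Real.log n ^ j := by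
  rw [norm_mul, norm_pow, Complex.norm_real, Real.norm_of_nonneg (Real.log_natCast_nonneg n)]
  exact mul_le_of_le_one_left (pow_nonneg (Real.log_natCast_nonneg n) _) (χ.norm_le_one _)

theorem h35_norm_GG_coeff {q : ℕ} (χ : DirichletCharacter ℂ q) (j n : ℕ) :
    ‖(vonMangoldt n : ℂ) * χ n * (Real.log n : ℂ) ^ j‖ ≤ Real.log n ^ (j + 1) := by
  rw [norm_mul, norm_mul, norm_pow, Complex.norm_real, Complex.norm_real,
    Real.norm_of_nonneg (Real.log_natCast_nonneg n), Real.norm_of_nonneg vonMangoldt_nonneg,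
    pow_succ']
  apply mul_le_mul_of_nonneg_right _ (pow_nonneg (Real.log_natCast_nonneg n) _)
  calc vonMangoldt n * ‖χ n‖ ≤ vonMangoldt n * 1 :=
        mul_le_mul_of_nonneg_left (χ.norm_le_one _) vonMangoldt_nonneg
    _ ≤ Real.log n := by rw [mul_one]; exact vonMangoldt_le_log

theorem h35_DD_summable {q : ℕ} (χ : DirichletCharacter ℂ q) (j : ℕ) {s : ℂ} (hs : 1 < s.re) :
    LSeriesSummable (fun n => χ n * (Real.log n : ℂ) ^ j) s :=
  h35_summable_of_log (fun n => h35_norm_DD_coeff χ j n) hs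

theorem h35_GG_summable {q : ℕ} (χ : DirichletCharacter ℂ q) (j : ℕ) {s : ℂ} (hs : 1 < s.re) :
    LSeriesSummable (fun n => (vonMangoldt n : ℂ) * χ n * (Real.log n : ℂ) ^ j) s :=
  h35_summable_of_log (fun n => h35_norm_GG_coeff χ j n) hs

/-- the pointwise identity behind `DD_succ` -/
theorem h35_pointwise {q : ℕ} (χ : DirichletCharacter ℂ q) (j n : ℕ) (hn : n ≠ 0) :
    χ n * (Real.log n : ℂ) ^ (j + 1) = ∑ i ∈ range (j + 1), (Nat.choose j i : ℂ) *
      ∑ p ∈ n.divisorsAntidiagonal, ((vonMangoldt p.1 : ℂ) * χ p.1 * (Real.log p.1 : ℂ) ^ i) *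
        (χ p.2 * (Real.log p.2 : ℂ) ^ (j - i)) := by
  have h1 : ∀ p ∈ n.divisorsAntidiagonal,
      ∑ i ∈ range (j + 1), (Nat.choose j i : ℂ) *
        (((vonMangoldt p.1 : ℂ) * χ p.1 * (Real.log p.1 : ℂ) ^ i) *
        (χ p.2 * (Real.log p.2 : ℂ) ^ (j - i)))
      = (vonMangoldt p.1 : ℂ) * (χ n * (Real.log n : ℂ) ^ j) := by
    intro p hp
    rw [Nat.mem_divisorsAntidiagonal] at hp
    have hp1 : p.1 ≠ 0 := fun h => hn (by rw [← hp.1, h, zero_mul])
    have hp2 : p.2 ≠ 0 := fun h => hn (by rw [← hp.1, h, mul_zero])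
    have hlog : (Real.log n : ℂ) = Real.log p.1 + Real.log p.2 := by
      rw [← hp.1]
      push_cast
      rw [Real.log_mul (by exact_mod_cast hp1) (by exact_mod_cast hp2)]
      push_cast
      ring
    have hχ : χ n = χ p.1 * χ p.2 := by
      rw [← hp.1]; push_cast; rw [map_mul]
    rw [hlog, hχ, add_pow, Finset.mul_sum, Finset.mul_sum]
    refine Finset.sum_congr rfl fun i _ => ?_
    ring
  have h2 : ∑ i ∈ range (j + 1), (Nat.choose j i : ℂ) *
      ∑ p ∈ n.divisorsAntidiagonal, ((vonMangoldt p.1 : ℂ) * χ p.1 * (Real.log p.1 : ℂ) ^ i) *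
        (χ p.2 * (Real.log p.2 : ℂ) ^ (j - i))
      = ∑ p ∈ n.divisorsAntidiagonal, (vonMangoldt p.1 : ℂ) * (χ n * (Real.log n : ℂ) ^ j) := by
    simp only [Finset.mul_sum]
    rw [Finset.sum_comm]
    refine Finset.sum_congr rfl fun p hp => ?_
    exact h1 p hp
  have h4 : ∑ p ∈ n.divisorsAntidiagonal, (vonMangoldt p.1 : ℂ) = ∑ d ∈ n.divisors,
      (vonMangoldt d : ℂ) := Nat.sum_divisorsAntidiagonal (fun d _ => (vonMangoldt d : ℂ))
  rw [h2, ← Finset.sum_mul, h4]
  have h3 : ∑ d ∈ n.divisors, (vonMangoldt d : ℂ) = (Real.log n : ℂ) := by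
    have := vonMangoldt_sum (n := n)
    exact_mod_cast this
  rw [h3]
  ring

/-- AN3: the Leibniz recursion `D_{j+1} = ∑ binom(j,i) G_i D_{j-i}`. -/
theorem DD_succ {q : ℕ} (_hq : 0 < q) (χ : DirichletCharacter ℂ q) (j : ℕ) (s : ℂ) (hs : 1 < s.re) :
    DD χ (j + 1) s = ∑ i ∈ range (j + 1), (Nat.choose j i : ℂ) * GG χ i s * DD χ (j - i) s := by
  have h1 : ∀ i, GG χ i s * DD χ (j - i) s
      = LSeries (LSeries.convolution (fun n => (vonMangoldt n : ℂ) * χ n * (Real.log n : ℂ) ^ i)
          (fun n => χ n * (Real.log n : ℂ) ^ (j - i))) s := fun i =>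
    (LSeries_convolution' (h35_GG_summable χ i hs) (h35_DD_summable χ (j - i) hs)).symm
  have h2 : ∀ i, LSeriesSummable (LSeries.convolution (fun n => (vonMangoldt n : ℂ) * χ n * (Real.log n : ℂ) ^ i)
          (fun n => χ n * (Real.log n : ℂ) ^ (j - i))) s := fun i =>
    (h35_GG_summable χ i hs).convolution (h35_DD_summable χ (j - i) hs)
  have h3 : ∀ i ∈ range (j + 1), (Nat.choose j i : ℂ) * GG χ i s * DD χ (j - i) s
      = LSeries ((Nat.choose j i : ℂ) • (LSeries.convolution (fun n => (vonMangoldt n : ℂ) * χ n * (Real.log n : ℂ) ^ i)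
          (fun n => χ n * (Real.log n : ℂ) ^ (j - i)))) s := by
    intro i _
    rw [LSeries_smul, ← h1, mul_assoc]
  rw [Finset.sum_congr rfl h3, ← LSeries_sum (fun i _ => (h2 i).smul _)]
  unfold DD
  refine LSeries_congr (fun {n} hn => ?_) s
  rw [h35_pointwise χ j n hn]
  simp only [Finset.sum_apply, Pi.smul_apply, LSeries.convolution_def, smul_eq_mul]

/-- AN3': bound for the derivatives of `-L'/L`, from the statement of `DD_bound`. -/
theorem GG_bound_of
    (DD_bound : ∀ j : ℕ, ∃ C : ℝ, 0 < C ∧ ∀ q : ℕ, 2 ≤ q → ∀ χ : DirichletCharacter ℂ q, χ ≠ 1 →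
      ∀ s : ℂ, 1 < s.re → s.re ≤ 2 → |s.im| ≤ 1 → ‖DD χ j s‖ ≤ C * (1 + Real.log q) ^ (j + 1))
    (K : ℕ) : ∃ C : ℝ, ∃ E : ℕ, 0 < C ∧ ∀ q : ℕ, 2 ≤ q →
    ∀ χ : DirichletCharacter ℂ q, χ ≠ 1 → ∀ s : ℂ, 1 < s.re → s.re ≤ 2 → |s.im| ≤ 1 →
    ∀ b : ℝ, 0 < b → b ≤ 1 → b ≤ ‖DD χ 0 s‖ → ∀ j ≤ K,
      ‖GG χ j s‖ ≤ C * ((1 + Real.log q) / b) ^ E := by
  choose C' hC' hD using DD_bound
  have key : ∀ j : ℕ, ∃ C : ℝ, 0 < C ∧ ∀ q : ℕ, 2 ≤ q →
      ∀ χ : DirichletCharacter ℂ q, χ ≠ 1 → ∀ s : ℂ, 1 < s.re → s.re ≤ 2 → |s.im| ≤ 1 →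
      ∀ b : ℝ, 0 < b → b ≤ 1 → b ≤ ‖DD χ 0 s‖ →
        ‖GG χ j s‖ ≤ C * ((1 + Real.log q) / b) ^ (3 * j + 2) := by
    intro j
    induction j using Nat.strong_induction_on with
    | _ j ih =>
      choose! Ci hCi hGi using ih
      refine ⟨C' (j + 1) + ∑ i ∈ range j, (Nat.choose j i : ℝ) * Ci i * C' (j - i), ?_, ?_⟩
      · refine add_pos_of_pos_of_nonneg (hC' _) (Finset.sum_nonneg fun i hi => ?_)
        have := hCi i (Finset.mem_range.1 hi)
        have := hC' (j - i)
        positivity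
      · intro q hq χ hχ s hs hs2 hsi b hb hb1 hbD
        have hD0 : DD χ 0 s ≠ 0 := by
          intro h
          rw [h, norm_zero] at hbD
          linarith
        have hl : 1 ≤ 1 + Real.log q := by
          have := Real.log_natCast_nonneg q
          linarith
        have hlb : 1 + Real.log q ≤ (1 + Real.log q) / b := by
          rw [le_div_iff₀ hb]
          nlinarith
        have hlb1 : 1 ≤ (1 + Real.log q) / b := hl.trans hlb
        have hrec := DD_succ (by omega) χ j s hs
        rw [Finset.sum_range_succ, Nat.choose_self, Nat.sub_self, Nat.cast_one, one_mul] at hrec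
        have hG : GG χ j s = (DD χ (j + 1) s - ∑ i ∈ range j,
            (Nat.choose j i : ℂ) * GG χ i s * DD χ (j - i) s) / DD χ 0 s := by
          rw [eq_div_iff hD0, hrec]
          ring
        have hnum : ‖DD χ (j + 1) s - ∑ i ∈ range j,
            (Nat.choose j i : ℂ) * GG χ i s * DD χ (j - i) s‖
            ≤ (C' (j + 1) + ∑ i ∈ range j, (Nat.choose j i : ℝ) * Ci i * C' (j - i))
              * (((1 + Real.log q) / b) ^ (3 * j + 1) * (1 + Real.log q)) := by
          refine (norm_sub_le _ _).trans ?_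
          rw [add_mul]
          apply add_le_add
          · refine (hD (j + 1) q hq χ hχ s hs hs2 hsi).trans ?_
            apply mul_le_mul_of_nonneg_left _ (hC' _).le
            rw [pow_succ]
            apply mul_le_mul_of_nonneg_right _ (by linarith)
            calc (1 + Real.log q) ^ (j + 1) ≤ ((1 + Real.log q) / b) ^ (j + 1) :=
                  pow_le_pow_left₀ (by linarith) hlb _
              _ ≤ _ := pow_le_pow_right₀ hlb1 (by omega)
          · refine (norm_sum_le _ _).trans ?_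
            rw [Finset.sum_mul]
            refine Finset.sum_le_sum fun i hi => ?_
            rw [Finset.mem_range] at hi
            rw [norm_mul, norm_mul, Complex.norm_natCast]
            have h1 := hGi i hi q hq χ hχ s hs hs2 hsi b hb hb1 hbD
            have h2 := hD (j - i) q hq χ hχ s hs hs2 hsi
            have h3 : ((1 + Real.log q) / b) ^ (3 * i + 2) * (1 + Real.log q) ^ (j - i + 1)
                ≤ ((1 + Real.log q) / b) ^ (3 * j + 1) * (1 + Real.log q) := by
              rw [pow_succ (1 + Real.log q), ← mul_assoc]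
              apply mul_le_mul_of_nonneg_right _ (by linarith)
              calc ((1 + Real.log q) / b) ^ (3 * i + 2) * (1 + Real.log q) ^ (j - i)
                  ≤ ((1 + Real.log q) / b) ^ (3 * i + 2) * ((1 + Real.log q) / b) ^ (j - i) := by
                    apply mul_le_mul_of_nonneg_left _ (by positivity)
                    exact pow_le_pow_left₀ (by linarith) hlb _
                _ = ((1 + Real.log q) / b) ^ (3 * i + 2 + (j - i)) := by rw [← pow_add]
                _ ≤ _ := pow_le_pow_right₀ hlb1 (by omega)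
            have hCi' := hCi i hi
            have hCj' := hC' (j - i)
            calc (Nat.choose j i : ℝ) * ‖GG χ i s‖ * ‖DD χ (j - i) s‖
                ≤ (Nat.choose j i : ℝ) * (Ci i * ((1 + Real.log q) / b) ^ (3 * i + 2))
                    * (C' (j - i) * (1 + Real.log q) ^ (j - i + 1)) := by
                  apply mul_le_mul _ h2 (norm_nonneg _) (by positivity)
                  exact mul_le_mul_of_nonneg_left h1 (Nat.cast_nonneg _)
              _ = ((Nat.choose j i : ℝ) * Ci i * C' (j - i))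
                    * (((1 + Real.log q) / b) ^ (3 * i + 2) * (1 + Real.log q) ^ (j - i + 1)) := by
                  ring
              _ ≤ _ := by
                  apply mul_le_mul_of_nonneg_left h3
                  positivity
        rw [hG, norm_div]
        have hSnn : 0 ≤ C' (j + 1) + ∑ i ∈ range j, (Nat.choose j i : ℝ) * Ci i * C' (j - i) := by
          refine add_nonneg (hC' _).le (Finset.sum_nonneg fun i hi => ?_)
          have := hCi i (Finset.mem_range.1 hi)
          have := hC' (j - i)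
          positivity
        calc ‖DD χ (j + 1) s - ∑ i ∈ range j, (Nat.choose j i : ℂ) * GG χ i s * DD χ (j - i) s‖
              / ‖DD χ 0 s‖
            ≤ ((C' (j + 1) + ∑ i ∈ range j, (Nat.choose j i : ℝ) * Ci i * C' (j - i))
              * (((1 + Real.log q) / b) ^ (3 * j + 1) * (1 + Real.log q))) / b := by
              apply div_le_div₀ _ hnum hb hbD
              positivity
          _ = _ := by
              rw [pow_succ ((1 + Real.log q) / b) (3 * j + 1)]
              ring
  choose C hC hG using key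
  refine ⟨∑ j ∈ range (K + 1), C j, 3 * K + 2,
    Finset.sum_pos (fun j _ => hC j) ⟨0, Finset.mem_range.2 (Nat.succ_pos K)⟩, ?_⟩
  intro q hq χ hχ s hs hs2 hsi b hb hb1 hbD j hj
  have hl : 1 ≤ 1 + Real.log q := by
    have := Real.log_natCast_nonneg q
    linarith
  have hlb1 : 1 ≤ (1 + Real.log q) / b := by
    rw [le_div_iff₀ hb]
    linarith
  refine (hG j q hq χ hχ s hs hs2 hsi b hb hb1 hbD).trans ?_
  apply mul_le_mul _ (pow_le_pow_right₀ hlb1 (by omega)) (by positivity)
    (Finset.sum_nonneg fun j _ => (hC j).le)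
  exact Finset.single_le_sum (f := C) (fun j _ => (hC j).le) (Finset.mem_range.2 (by omega))

end Pool.Agent.helper39.MT
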