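import Pool.Agent.helper35.MT.AN4
import Pool.Agent.helper99.MT.AN5

/-! # Maynard-Tao, module AN6: there are arbitrarily large good scales -/

namespace Pool.Agent.helper39.MT

open Finset Real ArithmeticFunction

lemma h35_prim_ne_one {q : ℕ} (hq : 2 ≤ q) {χ : DirichletCharacter ℂ q} (h : χ.IsPrimitive) :
    χ ≠ 1 := by
  rintro rfl
  rw [DirichletCharacter.isPrimitive_def] at h
  have : NeZero q := ⟨by omega⟩
  rw [DirichletCharacter.conductor_one] at h
  omega

/-- AN6: there are arbitrarily large good scales. -/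
theorem good_scales (C₀ : ℕ) : ∀ N : ℕ, ∃ L : ℕ, N ≤ L ∧ Good C₀ L := by
  intro N
  by_contra hcon
  push Not at hcon
  -- bad characters
  have hbad : ∀ L : ℕ, N ≤ L → ∃ q : ℕ, 2 ≤ q ∧ (q : ℝ) ≤ (L : ℝ) ^ C₀ ∧
      ∃ χ : DirichletCharacter ℂ q, χ.IsPrimitive ∧
        ‖DD χ 0 (1 + 1 / ((L : ℝ) : ℂ))‖ < 1 / Real.log L ^ 8 := by
    intro L hL
    have h := hcon L hL
    unfold Good at h
    push Not at h
    obtain ⟨q, hq, hqL, χ, hχ, hlt⟩ := h
    exact ⟨q, hq, hqL, χ, hχ, hlt⟩
  choose! q hq hqL χ hχ hlt using hbad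
  obtain ⟨c₄, hc₄, hc₄1, h₄⟩ := complex_lower
  obtain ⟨c₅, hc₅, hc₅1, h₅⟩ := real_repel_of (DD_bound 0) DD_lipschitz
  obtain ⟨CL, hCL, hlip⟩ := DD_lipschitz
  set c := min c₄ c₅ with hc
  have hc0 : 0 < c := lt_min hc₄ hc₅
  have hcc₄ : c ≤ c₄ := min_le_left _ _
  have hcc₅ : c ≤ c₅ := min_le_right _ _
  have hc1 : c ≤ 1 := hcc₄.trans hc₄1
  set B : ℝ := 2 * C₀ + 1 with hB
  have hB1 : 1 ≤ B := by
    rw [hB]; have := Nat.cast_nonneg (α := ℝ) C₀; linarith
  have hB0 : 0 < B := by linarith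
  set ε : ℝ := c / (2 * B ^ 9 * (1 + CL)) with hε
  have hε0 : 0 < ε := by positivity
  -- the asymptotic facts
  have hev1 := (Real.isLittleO_pow_log_id_atTop (n := 9)).def hε0
  have hev2 := Real.tendsto_log_atTop.eventually_ge_atTop (max 1 (2 * B ^ 7 / c))
  have hev3 := Filter.eventually_ge_atTop (3 : ℝ)
  obtain ⟨X, hX⟩ := Filter.eventually_atTop.1 ((hev1.and hev2).and hev3)
  obtain ⟨N₁, hN₁X⟩ := exists_nat_ge X
  set M := max N N₁ with hM
  -- facts for every `L ≥ M`
  have facts : ∀ L : ℕ, M ≤ L → 3 ≤ (L : ℝ) ∧ 1 ≤ Real.log L ∧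
      (1 + C₀ * Real.log ((L : ℝ) + 1)) ^ 9 ≤ c / 2 * L / (1 + CL) ∧
      (1 + C₀ * Real.log ((L : ℝ) + 1)) ^ 7 / Real.log L ^ 8 ≤ c / 2 := by
    intro L hL
    have hLX : X ≤ (L : ℝ) := hN₁X.trans (by exact_mod_cast (le_max_right _ _).trans hL)
    obtain ⟨⟨h1, h2⟩, h3⟩ := hX L hLX
    have hl1 : 1 ≤ Real.log L := (le_max_left _ _).trans h2
    have hl2 : 2 * B ^ 7 / c ≤ Real.log L := (le_max_right _ _).trans h2
    have hL0 : (0 : ℝ) < L := by linarith
    rw [Real.norm_of_nonneg (by positivity), id, Real.norm_of_nonneg hL0.le] at h1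
    have hlog : Real.log ((L : ℝ) + 1) ≤ 2 * Real.log L := by
      have : 2 * Real.log (L : ℝ) = Real.log ((L : ℝ) ^ 2) := by
        rw [Real.log_pow]; push_cast; ring
      rw [this]
      apply Real.log_le_log (by positivity)
      nlinarith
    have hy0 : 0 ≤ Real.log ((L : ℝ) + 1) := Real.log_nonneg (by linarith)
    have hC0 : (0 : ℝ) ≤ C₀ := Nat.cast_nonneg _
    have hy : 1 + C₀ * Real.log ((L : ℝ) + 1) ≤ B * Real.log L := by
      rw [hB]
      nlinarith [mul_le_mul_of_nonneg_left hlog hC0]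
    have hy00 : 0 ≤ 1 + C₀ * Real.log ((L : ℝ) + 1) := by positivity
    refine ⟨h3, hl1, ?_, ?_⟩
    · calc (1 + C₀ * Real.log ((L : ℝ) + 1)) ^ 9 ≤ (B * Real.log L) ^ 9 :=
            pow_le_pow_left₀ hy00 hy 9
        _ = B ^ 9 * Real.log L ^ 9 := by rw [mul_pow]
        _ ≤ B ^ 9 * (ε * L) := mul_le_mul_of_nonneg_left h1 (by positivity)
        _ = c / 2 * L / (1 + CL) := by
            rw [hε]
            have : (1 + CL) ≠ 0 := by positivity
            field_simp
    · have h7 : (1 + C₀ * Real.log ((L : ℝ) + 1)) ^ 7 ≤ B ^ 7 * Real.log L ^ 7 := by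
        rw [← mul_pow]
        exact pow_le_pow_left₀ hy00 hy 7
      rw [div_le_iff₀ (by positivity)]
      refine h7.trans ?_
      have h8 : B ^ 7 ≤ c / 2 * Real.log L := by
        rw [div_le_iff₀ hc0] at hl2
        linarith
      calc B ^ 7 * Real.log L ^ 7 ≤ (c / 2 * Real.log L) * Real.log L ^ 7 :=
            mul_le_mul_of_nonneg_right h8 (by positivity)
        _ = _ := by ring
  -- bounds for the conductors
  have hlogq : ∀ L : ℕ, M ≤ L → Real.log (q L) ≤ C₀ * Real.log L := by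
    intro L hL
    have hNL : N ≤ L := (le_max_left _ _).trans hL
    have h2 := hq L hNL
    have := Real.log_le_log (by exact_mod_cast (by omega : 0 < q L)) (hqL L hNL)
    rwa [Real.log_pow] at this
  have hre : ∀ x : ℝ, ((1 : ℂ) + (x : ℂ)).re = 1 + x := by intro x; simp
  have him : ∀ x : ℝ, |((1 : ℂ) + (x : ℂ)).im| ≤ 1 := by intro x; simp
  have hcast : ∀ L : ℕ, (1 : ℂ) + 1 / ((L : ℝ) : ℂ) = 1 + (((1 / (L : ℝ) : ℝ)) : ℂ) := by
    intro L; push_cast; ring
  -- the characters are real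
  have hreal : ∀ L : ℕ, M ≤ L → χ L ^ 2 = 1 := by
    intro L hL
    by_contra h2
    have hNL : N ≤ L := (le_max_left _ _).trans hL
    obtain ⟨h3, hl1, hF1, hF2⟩ := facts L hL
    have hL0 : (0 : ℝ) < L := by linarith
    have hy1 : 1 + Real.log (q L) ≤ 1 + C₀ * Real.log ((L : ℝ) + 1) := by
      have h5 := hlogq L hL
      have h6 : Real.log (L : ℝ) ≤ Real.log ((L : ℝ) + 1) := Real.log_le_log hL0 (by linarith)
      have := mul_le_mul_of_nonneg_left h6 (Nat.cast_nonneg (α := ℝ) C₀)
      linarith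
    have hy0 : 1 ≤ 1 + Real.log (q L) := by
      have := Real.log_natCast_nonneg (q L); linarith
    have hx : 1 / (L : ℝ) ≤ c₄ / (1 + Real.log (q L)) ^ 9 := by
      rw [div_le_div_iff₀ hL0 (by positivity), one_mul]
      calc (1 + Real.log (q L)) ^ 9 ≤ (1 + C₀ * Real.log ((L : ℝ) + 1)) ^ 9 :=
            pow_le_pow_left₀ (by linarith) hy1 9
        _ ≤ c / 2 * L / (1 + CL) := hF1
        _ ≤ c / 2 * L / 1 := by
            apply div_le_div_of_nonneg_left (by positivity) one_pos (by linarith)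
        _ ≤ c₄ * L := by
            rw [div_one]
            apply mul_le_mul_of_nonneg_right _ hL0.le
            linarith
    have h := h₄ (q L) (hq L hNL) (χ L) h2 (1 / (L : ℝ)) (by positivity) hx
    have hlt' := hlt L hNL
    rw [hcast] at hlt'
    have h5 : 1 / Real.log L ^ 8 ≤ c₄ / (1 + Real.log (q L)) ^ 7 := by
      rw [div_le_div_iff₀ (by positivity) (by positivity), one_mul]
      rw [div_le_iff₀ (by positivity)] at hF2
      calc (1 + Real.log (q L)) ^ 7 ≤ (1 + C₀ * Real.log ((L : ℝ) + 1)) ^ 7 :=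
            pow_le_pow_left₀ (by linarith) hy1 7
        _ ≤ c / 2 * Real.log L ^ 8 := hF2
        _ ≤ c₄ * Real.log L ^ 8 := by
            apply mul_le_mul_of_nonneg_right _ (by positivity)
            linarith
    linarith
  -- consecutive characters coincide
  have hstep : ∀ L : ℕ, M ≤ L → ∀ n : ℕ, χ L n = χ (L + 1) n := by
    intro L hL
    by_contra hne
    push Not at hne
    have hNL : N ≤ L := (le_max_left _ _).trans hL
    obtain ⟨h3, hl1, hF1, hF2⟩ := facts L hL
    have hL0 : (0 : ℝ) < L := by linarith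
    set Q : ℕ := (L + 1) ^ C₀ with hQ
    have hlogQ : Real.log Q = C₀ * Real.log ((L : ℝ) + 1) := by
      rw [hQ]; push_cast; rw [Real.log_pow]
    have hq1 : q L ≤ Q := by
      have h5 := hqL L hNL
      have h6 : q L ≤ L ^ C₀ := by exact_mod_cast h5
      exact h6.trans (Nat.pow_le_pow_left (Nat.le_succ L) C₀)
    have hq2 : q (L + 1) ≤ Q := by
      have h5 := hqL (L + 1) (by omega)
      exact_mod_cast h5
    set y := 1 + C₀ * Real.log ((L : ℝ) + 1) with hy
    have hy1 : 1 ≤ y := by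
      have : 0 ≤ Real.log ((L : ℝ) + 1) := Real.log_nonneg (by linarith)
      have h5 : (0 : ℝ) ≤ C₀ := Nat.cast_nonneg _
      rw [hy]
      nlinarith [mul_nonneg h5 this]
    have hF3 : y ^ 9 ≤ c / 2 * L := by
      refine hF1.trans ?_
      rw [div_le_iff₀ (by positivity)]
      nlinarith [mul_pos (mul_pos (half_pos hc0) hL0) hCL]
    have hx : 1 / (L : ℝ) ≤ c₅ / (1 + Real.log Q) ^ 5 := by
      rw [hlogQ, div_le_div_iff₀ hL0 (by positivity), one_mul]
      calc y ^ 5 ≤ y ^ 9 := pow_le_pow_right₀ hy1 (by norm_num)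
        _ ≤ c / 2 * L := hF3
        _ ≤ c₅ * L := by
            apply mul_le_mul_of_nonneg_right _ hL0.le
            linarith
    have hsmall : 1 / Real.log L ^ 8 ≤ c / 2 / y ^ 3 := by
      rw [div_le_div_iff₀ (by positivity) (by positivity), one_mul]
      rw [div_le_iff₀ (by positivity)] at hF2
      exact (pow_le_pow_right₀ hy1 (by norm_num)).trans hF2
    refine h₅ (q L) (q (L + 1)) Q (hq L hNL) (hq (L + 1) (by omega)) hq1 hq2 (χ L) (χ (L + 1))
      (hχ L hNL) (hχ (L + 1) (by omega)) (hreal L hL) (hreal (L + 1) (by omega)) hne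
      (1 / (L : ℝ)) (by positivity) hx ⟨?_, ?_⟩
    · have hlt' := hlt L hNL
      rw [hcast] at hlt'
      rw [hlogQ]
      refine hlt'.le.trans (hsmall.trans ?_)
      apply div_le_div_of_nonneg_right _ (by positivity)
      linarith
    · have hlt' := hlt (L + 1) (by omega)
      rw [hcast] at hlt'
      have hL1 : ((L + 1 : ℕ) : ℝ) = (L : ℝ) + 1 := by push_cast; ring
      rw [hL1] at hlt'
      have h6 := hlip (q (L + 1)) (hq (L + 1) (by omega)) (χ (L + 1))
        (h35_prim_ne_one (hq (L + 1) (by omega)) (hχ (L + 1) (by omega)))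
        (1 + (((1 / (L : ℝ) : ℝ)) : ℂ)) (1 + (((1 / ((L : ℝ) + 1) : ℝ)) : ℂ))
        (by rw [hre]; have : 0 < 1 / (L : ℝ) := by positivity
            linarith)
        (by rw [hre]; have : 1 / (L : ℝ) ≤ 1 := by rw [div_le_one hL0]; linarith
            linarith) (him _)
        (by rw [hre]; have : 0 < 1 / ((L : ℝ) + 1) := by positivity
            linarith)
        (by rw [hre]; have : 1 / ((L : ℝ) + 1) ≤ 1 := by rw [div_le_one (by linarith)]; linarith
            linarith) (him _)
      have h7 : ‖(1 + (((1 / (L : ℝ) : ℝ)) : ℂ)) - (1 + (((1 / ((L : ℝ) + 1) : ℝ)) : ℂ))‖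
          ≤ 1 / (L : ℝ) := by
        have e : (1 + (((1 / (L : ℝ) : ℝ)) : ℂ)) - (1 + (((1 / ((L : ℝ) + 1) : ℝ)) : ℂ))
            = ((1 / (L : ℝ) - 1 / ((L : ℝ) + 1) : ℝ) : ℂ) := by push_cast; ring
        rw [e, Complex.norm_real, Real.norm_of_nonneg]
        · have : 0 < 1 / ((L : ℝ) + 1) := by positivity
          linarith
        · rw [sub_nonneg]
          apply div_le_div_of_nonneg_left zero_le_one hL0 (by linarith)
      have hlq : 1 + Real.log (q (L + 1)) ≤ y := by
        have h8 := hlogq (L + 1) (by omega)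
        rw [hL1] at h8
        rw [hy]
        linarith
      have hlq0 : 0 ≤ 1 + Real.log (q (L + 1)) := by
        have := Real.log_natCast_nonneg (q (L + 1)); linarith
      have h9 : ‖DD (χ (L + 1)) 0 (1 + (((1 / (L : ℝ) : ℝ)) : ℂ))
          - DD (χ (L + 1)) 0 (1 + (((1 / ((L : ℝ) + 1) : ℝ)) : ℂ))‖ ≤ c / 2 / y ^ 3 := by
        refine h6.trans ?_
        calc CL * (1 + Real.log (q (L + 1))) ^ 2 *
              ‖(1 + (((1 / (L : ℝ) : ℝ)) : ℂ)) - (1 + (((1 / ((L : ℝ) + 1) : ℝ)) : ℂ))‖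
            ≤ CL * y ^ 2 * (1 / (L : ℝ)) := by
              apply mul_le_mul _ h7 (norm_nonneg _) (by positivity)
              exact mul_le_mul_of_nonneg_left (pow_le_pow_left₀ hlq0 hlq 2) hCL.le
          _ ≤ c / 2 / y ^ 3 := by
              rw [le_div_iff₀ (by positivity)]
              have e : CL * y ^ 2 * (1 / (L : ℝ)) * y ^ 3 = CL * y ^ 5 / L := by
                field_simp
              rw [e, div_le_iff₀ hL0]
              have h10 : y ^ 5 ≤ c / 2 * L / (1 + CL) :=
                (pow_le_pow_right₀ hy1 (by norm_num)).trans hF1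
              calc CL * y ^ 5 ≤ (1 + CL) * y ^ 5 := by
                    apply mul_le_mul_of_nonneg_right _ (by positivity)
                    linarith
                _ ≤ (1 + CL) * (c / 2 * L / (1 + CL)) :=
                    mul_le_mul_of_nonneg_left h10 (by positivity)
                _ = c / 2 * L := by
                    have : (1 + CL) ≠ 0 := by positivity
                    field_simp
      have h11 : 1 / Real.log ((L : ℝ) + 1) ^ 8 ≤ 1 / Real.log L ^ 8 := by
        apply div_le_div_of_nonneg_left zero_le_one (by positivity)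
        apply pow_le_pow_left₀ (by linarith)
        exact Real.log_le_log hL0 (by linarith)
      rw [hlogQ]
      have h12 := norm_sub_norm_le (DD (χ (L + 1)) 0 (1 + (((1 / (L : ℝ) : ℝ)) : ℂ)))
        (DD (χ (L + 1)) 0 (1 + (((1 / ((L : ℝ) + 1) : ℝ)) : ℂ)))
      have h13 : c / 2 / y ^ 3 + c / 2 / y ^ 3 ≤ c₅ / y ^ 3 := by
        rw [← add_div]
        apply div_le_div_of_nonneg_right _ (by positivity)
        linarith
      linarith
  -- all characters coincide
  have hall : ∀ L : ℕ, M ≤ L → ∀ n : ℕ, χ L n = χ M n := by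
    intro L hL
    induction L, hL using Nat.le_induction with
    | base => exact fun _ => rfl
    | succ L hL ih => exact fun n => by rw [← hstep L hL n, ih n]
  have hNM : N ≤ M := le_max_left _ _
  have hDDeq : ∀ L : ℕ, M ≤ L → ∀ s : ℂ, DD (χ L) 0 s = DD (χ M) 0 s := by
    intro L hL s
    unfold DD
    congr 1
    funext n
    rw [hall L hL n]
  -- the limit
  have hne1 : χ M ≠ 1 := h35_prim_ne_one (hq M hNM) (hχ M hNM)
  have : NeZero (q M) := ⟨by have := hq M hNM; omega⟩
  have hval : DirichletCharacter.LFunction (χ M) 1 ≠ 0 :=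
    DirichletCharacter.LFunction_apply_one_ne_zero hne1
  have hcont : Filter.Tendsto (fun L : ℕ => ‖DirichletCharacter.LFunction (χ M)
      (1 + (((1 / (L : ℝ) : ℝ)) : ℂ))‖) Filter.atTop
      (nhds ‖DirichletCharacter.LFunction (χ M) 1‖) := by
    have h1 : Filter.Tendsto (fun L : ℕ => (1 : ℂ) + (((1 / (L : ℝ) : ℝ)) : ℂ)) Filter.atTop
        (nhds (1 + ((0 : ℝ) : ℂ))) := by
      apply Filter.Tendsto.const_add
      exact (Complex.continuous_ofReal.tendsto 0).comp tendsto_one_div_atTop_nhds_zero_nat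
    have h2 : (1 : ℂ) + ((0 : ℝ) : ℂ) = 1 := by simp
    rw [h2] at h1
    exact (((DirichletCharacter.differentiable_LFunction hne1).continuous.tendsto 1).comp h1).norm
  have hzero : Filter.Tendsto (fun L : ℕ => 1 / Real.log (L : ℝ) ^ 8) Filter.atTop (nhds 0) := by
    have h1 : Filter.Tendsto (fun L : ℕ => Real.log (L : ℝ) ^ 8) Filter.atTop Filter.atTop :=
      (Filter.tendsto_pow_atTop (by norm_num)).comp
        (Real.tendsto_log_atTop.comp tendsto_natCast_atTop_atTop)
    refine h1.inv_tendsto_atTop.congr fun L => ?_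
    simp
  have hle : ‖DirichletCharacter.LFunction (χ M) 1‖ ≤ 0 := by
    refine le_of_tendsto_of_tendsto hcont hzero ?_
    filter_upwards [Filter.eventually_ge_atTop (max M 1)] with L hL
    have hML : M ≤ L := (le_max_left _ _).trans hL
    have hL1 : 1 ≤ L := (le_max_right _ _).trans hL
    have hL0 : (0 : ℝ) < L := by exact_mod_cast hL1
    have h1 := hlt L (hNM.trans hML)
    rw [hcast, hDDeq L hML, h35_DD_zero] at h1
    rw [DirichletCharacter.LFunction_eq_LSeries _ (by
      rw [hre]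
      have : 0 < 1 / (L : ℝ) := by positivity
      linarith)]
    exact h1.le
  exact hval (norm_le_zero_iff.1 hle)

end Pool.Agent.helper39.MT
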