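import Pool.Agent.helper39.MT.Defs

/-! # Maynard-Tao, module TR7: total masses -/

namespace Pool.Agent.helper39.MT

open Finset Real ArithmeticFunction

/-- `∑_{d ≤ n} Λ(d)/d ≤ log n + O(1)` -/
lemma h35_mertens_upper (n : ℕ) (hn : 1 ≤ n) :
    ∑ d ∈ Ioc 0 n, vonMangoldt d / d ≤ Real.log n + (Real.log 4 + 4) := by
  have hn0 : (0 : ℝ) < n := by exact_mod_cast hn
  have h1 : ∑ d ∈ Ioc 0 n, vonMangoldt d * ((n / d : ℕ) : ℝ) ≤ n * Real.log n := by
    have e1 : ∀ d ∈ Ioc 0 n, vonMangoldt d * ((n / d : ℕ) : ℝ)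
        = ∑ m ∈ Ioc 0 n, if d ∣ m then vonMangoldt d else 0 := by
      intro d hd
      rw [← sum_filter, sum_const, nsmul_eq_mul, mul_comm]
      congr 2
      exact (Nat.Ioc_filter_dvd_card_eq_div n d).symm
    rw [sum_congr rfl e1, sum_comm]
    have e2 : ∀ m ∈ Ioc 0 n, (∑ d ∈ Ioc 0 n, if d ∣ m then vonMangoldt d else 0) ≤ Real.log n := by
      intro m hm
      rw [mem_Ioc] at hm
      rw [← sum_filter]
      have e3 : (Ioc 0 n).filter (fun d => d ∣ m) = m.divisors := by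
        ext d
        rw [mem_filter, mem_Ioc, Nat.mem_divisors]
        constructor
        · rintro ⟨_, h⟩; exact ⟨h, by omega⟩
        · rintro ⟨h, _⟩
          have h1 := Nat.le_of_dvd (by omega) h
          have h2 := Nat.pos_of_dvd_of_pos h (by omega)
          exact ⟨⟨h2, by omega⟩, h⟩
      rw [e3, vonMangoldt_sum]
      exact Real.log_le_log (by exact_mod_cast (by omega : 0 < m)) (by exact_mod_cast hm.2)
    refine (sum_le_sum e2).trans ?_
    rw [sum_const, Nat.card_Ioc, nsmul_eq_mul]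
    simp
  have h2 : Chebyshev.psi n ≤ (Real.log 4 + 4) * n := Chebyshev.psi_le_const_mul_self hn0.le
  have h3 : ∑ d ∈ Ioc 0 n, vonMangoldt d = Chebyshev.psi n := by
    unfold Chebyshev.psi
    rw [Nat.floor_natCast]
  have h4 : ∀ d ∈ Ioc 0 n, vonMangoldt d * ((n : ℝ) / d) ≤
      vonMangoldt d * ((n / d : ℕ) : ℝ) + vonMangoldt d := by
    intro d hd
    rw [mem_Ioc] at hd
    have h5 : (n : ℝ) / d ≤ ((n / d : ℕ) : ℝ) + 1 := by
      have := Nat.lt_floor_add_one ((n : ℝ) / d)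
      rw [Nat.floor_div_eq_div] at this
      exact this.le
    calc vonMangoldt d * ((n : ℝ) / d) ≤ vonMangoldt d * (((n / d : ℕ) : ℝ) + 1) :=
          mul_le_mul_of_nonneg_left h5 vonMangoldt_nonneg
      _ = _ := by ring
  have h5 := sum_le_sum h4
  rw [sum_add_distrib, h3] at h5
  have h6 : ∑ d ∈ Ioc 0 n, vonMangoldt d * ((n : ℝ) / d) = n * ∑ d ∈ Ioc 0 n, vonMangoldt d / d := by
    rw [mul_sum]
    exact sum_congr rfl fun d _ => by ring
  rw [h6] at h5
  have h7 : (n : ℝ) * ∑ d ∈ Ioc 0 n, vonMangoldt d / d ≤ n * (Real.log n + (Real.log 4 + 4)) := by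
    linarith
  exact le_of_mul_le_mul_left h7 hn0

lemma h35_log_factorial (n : ℕ) : Real.log (n.factorial) = ∑ m ∈ Ioc 0 n, Real.log m := by
  induction n with
  | zero => simp
  | succ n ih =>
    rw [Finset.sum_Ioc_succ_top (by omega), ← ih, Nat.factorial_succ]
    push_cast
    rw [Real.log_mul (by positivity) (by have := n.factorial_pos; positivity)]
    ring

/-- `∑_{d ≤ n} Λ(d)/d ≥ log n - 1` -/
lemma h35_mertens_lower (n : ℕ) (hn : 1 ≤ n) :
    Real.log n - 1 ≤ ∑ d ∈ Ioc 0 n, vonMangoldt d / d := by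
  have hn0 : (0 : ℝ) < n := by exact_mod_cast hn
  have h1 : Real.log (n.factorial) = ∑ d ∈ Ioc 0 n, vonMangoldt d * ((n / d : ℕ) : ℝ) := by
    rw [h35_log_factorial]
    have e1 : ∀ d ∈ Ioc 0 n, vonMangoldt d * ((n / d : ℕ) : ℝ)
        = ∑ m ∈ Ioc 0 n, if d ∣ m then vonMangoldt d else 0 := by
      intro d hd
      rw [← sum_filter, sum_const, nsmul_eq_mul, mul_comm]
      congr 2
      exact (Nat.Ioc_filter_dvd_card_eq_div n d).symm
    rw [sum_congr rfl e1, sum_comm]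
    refine sum_congr rfl fun m hm => ?_
    rw [mem_Ioc] at hm
    rw [← sum_filter]
    have e3 : (Ioc 0 n).filter (fun d => d ∣ m) = m.divisors := by
      ext d
      rw [mem_filter, mem_Ioc, Nat.mem_divisors]
      constructor
      · rintro ⟨_, h⟩; exact ⟨h, by omega⟩
      · rintro ⟨h, _⟩
        have h1 := Nat.le_of_dvd (by omega) h
        have h2 := Nat.pos_of_dvd_of_pos h (by omega)
        exact ⟨⟨h2, by omega⟩, h⟩
    rw [e3, vonMangoldt_sum]
  have h2 : (n : ℝ) * Real.log n - n ≤ Real.log (n.factorial) := by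
    have h3 := Real.pow_div_factorial_le_exp (n : ℝ) hn0.le n
    have h4 : (0 : ℝ) < n.factorial := by exact_mod_cast n.factorial_pos
    rw [div_le_iff₀ h4] at h3
    have h5 := Real.log_le_log (by positivity) h3
    rw [Real.log_pow, Real.log_mul (Real.exp_pos _).ne' h4.ne', Real.log_exp] at h5
    linarith
  have h3 : ∑ d ∈ Ioc 0 n, vonMangoldt d * ((n / d : ℕ) : ℝ) ≤ n * ∑ d ∈ Ioc 0 n, vonMangoldt d / d := by
    rw [mul_sum]
    refine sum_le_sum fun d _ => ?_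
    calc vonMangoldt d * ((n / d : ℕ) : ℝ) ≤ vonMangoldt d * ((n : ℝ) / d) :=
          mul_le_mul_of_nonneg_left Nat.cast_div_le vonMangoldt_nonneg
      _ = n * (vonMangoldt d / d) := by ring
  have h4 : (n : ℝ) * (Real.log n - 1) ≤ n * ∑ d ∈ Ioc 0 n, vonMangoldt d / d := by linarith
  exact le_of_mul_le_mul_left h4 hn0

/-- `∑_{K < n ≤ N} 1/n ≤ log N - log K` -/
lemma h35_sum_inv_le {K N : ℕ} (hK : 1 ≤ K) (hKN : K ≤ N) :
    ∑ n ∈ Ioc K N, (1 : ℝ) / n ≤ Real.log N - Real.log K := by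
  induction N, hKN using Nat.le_induction with
  | base => simp
  | succ N hN ih =>
    rw [Finset.sum_Ioc_succ_top (by omega)]
    have hN0 : (0 : ℝ) < N := by exact_mod_cast (by omega : 0 < N)
    have h1 := Real.one_sub_inv_le_log_of_pos (show 0 < ((N + 1 : ℕ) : ℝ) / N by positivity)
    rw [Real.log_div (by positivity) hN0.ne'] at h1
    have h2 : 1 - (((N + 1 : ℕ) : ℝ) / N)⁻¹ = 1 / ((N + 1 : ℕ) : ℝ) := by
      push_cast
      field_simp
      ring
    rw [h2] at h1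
    linarith

theorem wt_nonneg (L a : ℝ) (n : ℕ) : 0 ≤ wt L a n :=
  div_nonneg (V_nonneg _) (Nat.cast_nonneg n)

lemma h35_wt_le (L a : ℝ) (n : ℕ) : wt L a n ≤ 1 / n :=
  div_le_div_of_nonneg_right (V_le_one _) (Nat.cast_nonneg n)

lemma h35_wt_zero {L a : ℝ} (hL : 0 < L) {n : ℕ} (hn : 0 < n) (h : (n : ℝ) ≤ Real.exp (L / 2 + a)) :
    wt L a n = 0 := by
  unfold wt
  rw [V_eq_zero_left, zero_div]
  have hn0 : (0 : ℝ) < n := by exact_mod_cast hn
  have h1 : Real.log n ≤ L / 2 + a := by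
    rw [Real.log_le_iff_le_exp hn0]; exact h
  rw [div_le_iff₀ hL]
  linarith

lemma h35_wt_one {L a : ℝ} (hL : 0 < L) {n : ℕ} (hn : 0 < n)
    (h : Real.exp (5 * L / 8 + a) ≤ n) (h' : (n : ℝ) ≤ Real.exp (7 * L / 8 + a)) :
    wt L a n = 1 / n := by
  unfold wt
  have hn0 : (0 : ℝ) < n := by exact_mod_cast hn
  have h1 : Real.log n ≤ 7 * L / 8 + a := by
    rw [Real.log_le_iff_le_exp hn0]; exact h'
  have h2 : 5 * L / 8 + a ≤ Real.log n := by
    rw [Real.le_log_iff_exp_le hn0]; exact h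
  rw [V_eq_one]
  · rw [le_div_iff₀ hL]; linarith
  · rw [div_le_iff₀ hL]; linarith

/-- half of a number `≥ 1` is at most its floor -/
lemma h35_floor_ge {x : ℝ} (hx : 1 ≤ x) : x / 2 ≤ (⌊x⌋₊ : ℝ) := by
  have h1 := Nat.lt_floor_add_one x
  have h2 : (1 : ℝ) ≤ ⌊x⌋₊ := by
    have : 1 ≤ ⌊x⌋₊ := Nat.one_le_floor_iff x |>.2 hx
    exact_mod_cast this
  linarith

lemma h35_log_floor_ge {y : ℝ} (hy : 0 ≤ y) :
    y - Real.log 2 ≤ Real.log (⌊Real.exp y⌋₊ : ℝ) := by
  have h1 : 1 ≤ Real.exp y := Real.one_le_exp hy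
  have h2 := h35_floor_ge h1
  have h3 := Real.log_le_log (by positivity) h2
  rw [Real.log_div (Real.exp_pos _).ne' (by norm_num), Real.log_exp] at h3
  exact h3

lemma h35_log_floor_le {y : ℝ} (hy : 0 ≤ y) : Real.log (⌊Real.exp y⌋₊ : ℝ) ≤ y := by
  have h1 : 1 ≤ ⌊Real.exp y⌋₊ := (Nat.one_le_floor_iff _).2 (Real.one_le_exp hy)
  rw [Real.log_le_iff_le_exp (by exact_mod_cast h1)]
  exact Nat.floor_le (Real.exp_pos _).le

lemma h35_log_two : Real.log 2 < 0.7 := lt_trans Real.log_two_lt_d9 (by norm_num)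

/-- TR7: total masses. -/
theorem wt_sum_le (L : ℝ) (hL : 2 ≤ L) : ∑ n ∈ Ioc 0 (NN L 0), wt L 0 n ≤ L := by
  have hL0 : 0 < L := by linarith
  set K := ⌊Real.exp (L / 2)⌋₊ with hK
  have hK1 : 1 ≤ K := (Nat.one_le_floor_iff _).2 (Real.one_le_exp (by linarith))
  have hKN : K ≤ NN L 0 := by
    unfold NN
    exact Nat.floor_le_floor (Real.exp_le_exp.2 (by linarith))
  have h1 : ∑ n ∈ Ioc 0 (NN L 0), wt L 0 n = ∑ n ∈ Ioc K (NN L 0), wt L 0 n := by
    rw [← Finset.sum_Ioc_consecutive _ (Nat.zero_le K) hKN, Finset.sum_eq_zero, zero_add]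
    intro n hn
    rw [mem_Ioc] at hn
    apply h35_wt_zero hL0 hn.1
    rw [add_zero]
    exact (Nat.le_floor_iff (Real.exp_pos _).le).1 hn.2
  rw [h1]
  refine (sum_le_sum fun n _ => h35_wt_le L 0 n).trans ((h35_sum_inv_le hK1 hKN).trans ?_)
  have h2 : Real.log (NN L 0) ≤ L := by
    unfold NN
    rw [add_zero]
    exact h35_log_floor_le (by linarith)
  have h3 := h35_log_floor_ge (y := L / 2) (by linarith)
  rw [← hK] at h3
  have := h35_log_two
  linarith

theorem Lam_wt_sum_ge (A : ℕ) (hA : 0 < A) : ∃ L₁ : ℝ, ∀ L : ℝ, L₁ ≤ L →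
    L / 5 ≤ ∑ n ∈ Ioc 0 (NN L (Real.log A)), vonMangoldt n * wt L (Real.log A) n ∧
    ∑ n ∈ Ioc 0 (NN L (Real.log A)), vonMangoldt n * wt L (Real.log A) n ≤ L := by
  refine ⟨200, fun L hL => ?_⟩
  have hL0 : 0 < L := by linarith
  have ha : 0 ≤ Real.log A := Real.log_natCast_nonneg A
  set a := Real.log A with hadef
  have hlog2 := h35_log_two
  have hlog4 : Real.log 4 < 1.4 := by
    rw [show (4 : ℝ) = 2 ^ 2 by norm_num, Real.log_pow]
    push_cast
    linarith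
  set N := NN L a with hN
  have hN' : N = ⌊Real.exp (L + a)⌋₊ := rfl
  have hnn : ∀ n ∈ Ioc 0 N, 0 ≤ vonMangoldt n * wt L a n := fun n _ =>
    mul_nonneg vonMangoldt_nonneg (wt_nonneg _ _ _)
  constructor
  · set K₁ := ⌊Real.exp (5 * L / 8 + a)⌋₊ with hK₁
    set K₂ := ⌊Real.exp (7 * L / 8 + a)⌋₊ with hK₂
    have h12 : K₁ ≤ K₂ := Nat.floor_le_floor (Real.exp_le_exp.2 (by linarith))
    have h2N : K₂ ≤ N := Nat.floor_le_floor (Real.exp_le_exp.2 (by linarith))
    have hK₁1 : 1 ≤ K₁ := (Nat.one_le_floor_iff _).2 (Real.one_le_exp (by linarith))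
    have h1 : ∑ n ∈ Ioc K₁ K₂, vonMangoldt n * wt L a n ≤ ∑ n ∈ Ioc 0 N, vonMangoldt n * wt L a n := by
      apply Finset.sum_le_sum_of_subset_of_nonneg
      · intro n hn
        rw [mem_Ioc] at hn ⊢
        omega
      · intro n hn _
        exact hnn n hn
    refine le_trans ?_ h1
    have h2 : ∑ n ∈ Ioc K₁ K₂, vonMangoldt n * wt L a n = ∑ n ∈ Ioc K₁ K₂, vonMangoldt n / n := by
      refine sum_congr rfl fun n hn => ?_
      rw [mem_Ioc] at hn
      rw [h35_wt_one hL0 (by omega)]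
      · ring
      · exact (Nat.lt_of_floor_lt hn.1).le
      · exact (Nat.le_floor_iff (Real.exp_pos _).le).1 hn.2
    rw [h2]
    have h3 := Finset.sum_Ioc_consecutive (fun n : ℕ => vonMangoldt n / (n : ℝ)) (Nat.zero_le K₁) h12
    have h4 := h35_mertens_upper K₁ hK₁1
    have h5 := h35_mertens_lower K₂ (by omega)
    have h6 : Real.log K₁ ≤ 5 * L / 8 + a := h35_log_floor_le (by linarith)
    have h7 : 7 * L / 8 + a - Real.log 2 ≤ Real.log K₂ := h35_log_floor_ge (by linarith)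
    linarith
  · set K₀ := ⌊Real.exp (L / 2 + a)⌋₊ with hK₀
    have h0N : K₀ ≤ N := Nat.floor_le_floor (Real.exp_le_exp.2 (by linarith))
    have hK₀1 : 1 ≤ K₀ := (Nat.one_le_floor_iff _).2 (Real.one_le_exp (by linarith))
    have h1 : ∑ n ∈ Ioc 0 N, vonMangoldt n * wt L a n = ∑ n ∈ Ioc K₀ N, vonMangoldt n * wt L a n := by
      rw [← Finset.sum_Ioc_consecutive _ (Nat.zero_le K₀) h0N, Finset.sum_eq_zero, zero_add]
      intro n hn
      rw [mem_Ioc] at hn
      rw [h35_wt_zero hL0 hn.1, mul_zero]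
      exact (Nat.le_floor_iff (Real.exp_pos _).le).1 hn.2
    rw [h1]
    have h2 : ∑ n ∈ Ioc K₀ N, vonMangoldt n * wt L a n ≤ ∑ n ∈ Ioc K₀ N, vonMangoldt n / n := by
      refine sum_le_sum fun n _ => ?_
      have := mul_le_mul_of_nonneg_left (h35_wt_le L a n) (vonMangoldt_nonneg (n := n))
      refine this.trans (le_of_eq ?_)
      ring
    refine h2.trans ?_
    have h3 := Finset.sum_Ioc_consecutive (fun n : ℕ => vonMangoldt n / (n : ℝ)) (Nat.zero_le K₀) h0N
    have h4 := h35_mertens_upper N (by omega)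
    have h5 := h35_mertens_lower K₀ hK₀1
    have h6 : Real.log N ≤ L + a := h35_log_floor_le (by linarith)
    have h7 : L / 2 + a - Real.log 2 ≤ Real.log K₀ := h35_log_floor_ge (by linarith)
    linarith

end Pool.Agent.helper39.MT
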